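import Pool.Agent.Helper15.FC.St2

set_option autoImplicit false

/-!
# Project FC, module CNV: convolution sums
-/

namespace Pool.Agent.Helper11.FC

open Pool.Agent.Helper15.FC Polynomial

noncomputable section

private theorem quot_facts {F : Type} [Field F] [Fintype F] {f g : F[X]} (hf : f.Monic)
    (hg : g.Monic) (hgf : g ∣ f) :
    g * (f / g) = f ∧ (f / g).Monic ∧ f.natDegree = g.natDegree + (f / g).natDegree := by
  obtain ⟨c, rfl⟩ := hgf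
  have h1 : g * c / g = c := mul_div_cancel_left₀ c hg.ne_zero
  have hc : c.Monic := hg.of_mul_monic_left hf
  rw [h1]
  exact ⟨rfl, hc, hg.natDegree_mul hc⟩

theorem hCNV : StCNV := by
  classical
  intro F _ _ a b n
  have hR : ∀ i ∈ Finset.range (n + 1), ∑ g ∈ Mn F i, ∑ h ∈ Mn F (n - i), a g * b h =
      ∑ p ∈ Mn F i ×ˢ Mn F (n - i), a p.1 * b p.2 := by
    intro i _
    rw [Finset.sum_product]
  rw [Finset.sum_congr rfl hR, Finset.sum_sigma', Finset.sum_sigma']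
  refine Finset.sum_bij' (fun x _ => ⟨x.2.natDegree, (x.2, x.1 / x.2)⟩)
    (fun y _ => ⟨y.2.1 * y.2.2, y.2.1⟩) ?_ ?_ ?_ ?_ ?_
  · rintro ⟨f, g⟩ hx
    rw [Finset.mem_sigma] at hx
    obtain ⟨hf, hg⟩ := hx
    dsimp only at hf hg
    obtain ⟨hf1, hf2⟩ := mem_Mn.1 hf
    obtain ⟨hg1, hg2⟩ := (mem_Dv hf1.ne_zero).1 hg
    obtain ⟨h1, h2, h3⟩ := quot_facts hf1 hg1 hg2
    dsimp only
    rw [Finset.mem_sigma, Finset.mem_product, Finset.mem_range]
    refine ⟨?_, mem_Mn.2 ⟨hg1, rfl⟩, mem_Mn.2 ⟨h2, ?_⟩⟩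
    · dsimp only
      omega
    · dsimp only
      omega
  · rintro ⟨i, g, h⟩ hy
    rw [Finset.mem_sigma, Finset.mem_product, Finset.mem_range] at hy
    obtain ⟨hi, hg, hh⟩ := hy
    dsimp only at hi hg hh
    obtain ⟨hg1, hg2⟩ := mem_Mn.1 hg
    obtain ⟨hh1, hh2⟩ := mem_Mn.1 hh
    dsimp only
    rw [Finset.mem_sigma]
    have hm : (g * h).Monic := hg1.mul hh1
    refine ⟨mem_Mn.2 ⟨hm, ?_⟩, (mem_Dv hm.ne_zero).2 ⟨hg1, Dvd.intro _ rfl⟩⟩
    dsimp only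
    rw [hg1.natDegree_mul hh1, hg2, hh2]
    omega
  · rintro ⟨f, g⟩ hx
    rw [Finset.mem_sigma] at hx
    obtain ⟨hf, hg⟩ := hx
    dsimp only at hf hg
    obtain ⟨hf1, hf2⟩ := mem_Mn.1 hf
    obtain ⟨hg1, hg2⟩ := (mem_Dv hf1.ne_zero).1 hg
    obtain ⟨h1, h2, h3⟩ := quot_facts hf1 hg1 hg2
    dsimp only
    rw [h1]
  · rintro ⟨i, g, h⟩ hy
    rw [Finset.mem_sigma, Finset.mem_product, Finset.mem_range] at hy
    obtain ⟨hi, hg, hh⟩ := hy
    dsimp only at hi hg hh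
    obtain ⟨hg1, hg2⟩ := mem_Mn.1 hg
    dsimp only
    have h1 : g * h / g = h := mul_div_cancel_left₀ h hg1.ne_zero
    rw [h1, hg2]
  · rintro ⟨f, g⟩ hx
    rfl

end

end Pool.Agent.Helper11.FC
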