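import Pool.Agent.Helper15.FC.St1

set_option autoImplicit false

/-!
# Project FC, module DVD: coprime divisors
-/

namespace Pool.Agent.Helper11.FC

open Pool.Agent.Helper15.FC Polynomial

noncomputable section

private theorem X_mem {L : Type} [Field L] {b : ℕ} (y : Fin b → PowerSeries L) :
    (PowerSeries.X : PowerSeries L) ∈ RR y := by
  refine ⟨MvPolynomial.X none, ?_⟩
  change ev y (MvPolynomial.X none) = PowerSeries.X
  unfold ev
  rw [MvPolynomial.aeval_X]
  rfl

private theorem coe_mem {L : Type} [Field L] {b : ℕ} (y : Fin b → PowerSeries L) (p : L[X]) :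
    (p : PowerSeries L) ∈ RR y := by
  induction p using Polynomial.induction_on' with
  | add p q hp hq =>
    rw [Polynomial.coe_add]
    exact (RR y).add_mem hp hq
  | monomial n a =>
    rw [← Polynomial.C_mul_X_pow_eq_monomial, Polynomial.coe_mul, Polynomial.coe_C,
      Polynomial.coe_pow, Polynomial.coe_X]
    exact (RR y).mul_mem ((RR y).algebraMap_mem a) ((RR y).pow_mem (X_mem y) n)

theorem hDVD : StDVD := by
  classical
  intro L _ b y Θ A hΘ hA
  induction A using Finset.induction_on with
  | empty => exact ⟨Θ, hΘ, by simp⟩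
  | insert a A ha ih =>
    obtain ⟨g, hg, hg1⟩ := ih (fun x hx => hA x (Finset.mem_insert_of_mem hx))
    obtain ⟨g', hg', hg1'⟩ := hA a (Finset.mem_insert_self a A)
    have hco : IsCoprime (∏ x ∈ A, (X - C x) : L[X]) (X - C a) := by
      refine IsCoprime.prod_left fun x hx => ?_
      refine Polynomial.isCoprime_X_sub_C_of_isUnit_sub ?_
      refine (sub_ne_zero.2 ?_).isUnit
      intro h
      rw [h] at hx
      exact ha hx
    obtain ⟨u, v, huv⟩ := hco
    have h1 : (u : PowerSeries L) * ((∏ x ∈ A, (X - C x) : L[X]) : PowerSeries L) +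
        (v : PowerSeries L) * (PowerSeries.X - PowerSeries.C a) = 1 := by
      have := congrArg (fun p : L[X] => (p : PowerSeries L)) huv
      simpa using this
    refine ⟨(u : PowerSeries L) * g' + (v : PowerSeries L) * g, (RR y).add_mem ((RR y).mul_mem (coe_mem y u) hg')
      ((RR y).mul_mem (coe_mem y v) hg), ?_⟩
    rw [sub_zero] at hg1'
    rw [Finset.prod_insert ha, Polynomial.coe_mul, Polynomial.coe_sub, Polynomial.coe_X,
      Polynomial.coe_C]
    generalize ((∏ x ∈ A, (X - C x) : L[X]) : PowerSeries L) = W at *
    generalize (u : PowerSeries L) = u' at *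
    generalize (v : PowerSeries L) = v' at *
    have h2 : g = (PowerSeries.X - PowerSeries.C a) * (u' * g' + v' * g) := by
      calc g = 1 * g := (one_mul g).symm
        _ = (u' * W + v' * (PowerSeries.X - PowerSeries.C a)) * g := by rw [h1]
        _ = u' * (W * g) + (PowerSeries.X - PowerSeries.C a) * (v' * g) := by ring
        _ = u' * ((PowerSeries.X - PowerSeries.C a) * g') +
            (PowerSeries.X - PowerSeries.C a) * (v' * g) := by rw [← hg1, hg1']
        _ = _ := by ring
    calc Θ = W * g := hg1
      _ = W * ((PowerSeries.X - PowerSeries.C a) * (u' * g' + v' * g)) := by rw [← h2]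
      _ = _ := by ring

end

end Pool.Agent.Helper11.FC
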